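import Pool.Agent.P.MP_77a832_co.KS.ZDefs
import Pool.Agent.P.MP_77a832_co.KS.ZFree
import Pool.Agent.P.MP_77a832_co.KB.Defs

/-! From lines in general position to the combinatorial hypotheses on sweeps. -/

set_option autoImplicit false

namespace Pool.Agent.P.MP_77a832_co.KM

open Finset
open scoped Classical

variable {α : Type}

/-- a balanced family of lines in general position, frozen after the time `N` -/
structure Good (x y : α → ℝ) (th be : ℕ → ℝ) (A : ℕ → Finset α) (P : Finset α) (N : ℕ) :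
    Prop where
  mono : StrictMono th
  mem : ∀ t p, p ∈ A t ↔ p ∈ P ∧ th (min t N) * x p + be (min t N) < y p
  card : ∀ s t, (A s).card = (A t).card
  gp : KS.GP x y th be P 0 N

variable {x y : α → ℝ} {th be : ℕ → ℝ} {A : ℕ → Finset α} {P : Finset α} {N : ℕ}

theorem Good.of (h : KS.Bal x y th be A P 0 N) (g : KS.GP x y th be P 0 N) :
    Good x y th be (fun t => P ∩ A (min t N)) P N where
  mono := h.mono
  mem := fun t p => by
    rw [mem_inter]
    exact and_congr_right fun hp => h.ab _ (Nat.zero_le _) (min_le_right _ _) p hp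
  card := fun s t => h.card _ _ (Nat.zero_le _) (min_le_right _ _) (Nat.zero_le _)
    (min_le_right _ _)
  gp := g

theorem Good.sub (h : Good x y th be A P N) (t : ℕ) : A t ⊆ P := fun p hp => ((h.mem t p).1 hp).1

theorem Good.trunc (h : Good x y th be A P N) (t : ℕ) : A (min t N) = A t := by
  ext p
  rw [h.mem, h.mem, min_assoc, min_self]

theorem Good.late (h : Good x y th be A P N) {t : ℕ} (ht : N ≤ t) : A t = A N := by
  rw [← h.trunc t, min_eq_right ht]

theorem Good.refl (h : Good x y th be A P N) :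
    Good (fun p => - x p) (fun p => - y p) th (fun t => - be t) (fun t => P \ A t) P N where
  mono := h.mono
  mem := fun t p => by
    rw [mem_sdiff, h.mem]
    refine and_congr_right fun hp => ?_
    have := h.gp.off p hp (min t N) (Nat.zero_le _) (min_le_right _ _)
    constructor
    · intro k
      have k2 : ¬ th (min t N) * x p + be (min t N) < y p := fun c => k ⟨hp, c⟩
      have := lt_of_le_of_ne (not_lt.1 k2) this.symm
      linarith
    · intro k c
      linarith [c.2]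
  card := fun s t => by
    rw [card_sdiff_of_subset (h.sub s), card_sdiff_of_subset (h.sub t), h.card s t]
  gp :=
    { off := fun p hp t a b c => h.gp.off p hp t a b (by linarith)
      inj := fun p hp q hq a c => h.gp.inj p hp q hq a (by linarith)
      col := fun p hp q hq r hr a b c d => h.gp.col p hp q hq r hr a b c (by linarith)
      par := fun p hp q hq a t b c d => h.gp.par p hp q hq a t b c (by linarith) }

theorem Good.bal (h : Good x y th be A P N) : KS.Bal x y th be A P 0 N where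
  mono := h.mono
  ab := fun t _ ht p hp => by
    rw [h.mem, min_eq_left ht]
    exact and_iff_right hp
  card := fun s t _ _ _ _ => by
    rw [inter_eq_right.2 (h.sub s), inter_eq_right.2 (h.sub t), h.card s t]

theorem Good.act_eq (h : Good x y th be A P N) (a b : ℕ) : KB.act A a b = KS.act A P a b := by
  ext p
  rw [KB.mem_act, KS.mem_act]
  constructor
  · rintro ⟨⟨s, s1, s2, s3⟩, t, t1, t2, t3⟩
    exact ⟨h.sub s s3, s, t, s1, s2, t1, t2, s3, t3⟩
  · rintro ⟨_, s, t, s1, s2, t1, t2, s3, t3⟩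
    exact ⟨⟨s, s1, s2, s3⟩, t, t1, t2, t3⟩

theorem Good.act_sub (h : Good x y th be A P N) (a b : ℕ) : KB.act A a b ⊆ P := by
  intro p hp
  obtain ⟨⟨s, _, _, s3⟩, _⟩ := KB.mem_act.1 hp
  exact h.sub s s3

theorem Good.act_refl (h : Good x y th be A P N) (a b : ℕ) :
    KB.act (fun t => P \ A t) a b = KB.act A a b := by
  ext p
  rw [KB.mem_act, KB.mem_act]
  constructor
  · rintro ⟨⟨s, s1, s2, s3⟩, t, t1, t2, t3⟩
    rw [mem_sdiff] at s3 t3
    exact ⟨⟨t, t1, t2, by by_contra c; exact t3 ⟨s3.1, c⟩⟩, s, s1, s2, s3.2⟩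
  · rintro ⟨⟨s, s1, s2, s3⟩, t, t1, t2, t3⟩
    exact ⟨⟨t, t1, t2, mem_sdiff.2 ⟨h.sub s s3, t3⟩⟩, s, s1, s2, fun c => (mem_sdiff.1 c).2 s3⟩

theorem Good.act_trunc (h : Good x y th be A P N) {a b : ℕ} (hab : a ≤ b) :
    KB.act A (min a N) (min b N) = KB.act A a b := by
  have k : ∀ s, min a N ≤ s → s ≤ min b N → ∃ s', a ≤ s' ∧ s' ≤ b ∧ A s' = A s := by
    intro s s1 s2
    rcases le_total a N with c | c
    · exact ⟨s, by omega, by omega, rfl⟩
    · have : s = N := by omega
      exact ⟨a, le_rfl, hab, by rw [this, h.late c]⟩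
  ext p
  rw [KB.mem_act, KB.mem_act]
  constructor
  · rintro ⟨⟨s, s1, s2, s3⟩, t, t1, t2, t3⟩
    obtain ⟨s', u1, u2, u3⟩ := k s s1 s2
    obtain ⟨t', v1, v2, v3⟩ := k t t1 t2
    exact ⟨⟨s', u1, u2, u3 ▸ s3⟩, t', v1, v2, v3 ▸ t3⟩
  · rintro ⟨⟨s, s1, s2, s3⟩, t, t1, t2, t3⟩
    exact ⟨⟨min s N, by omega, by omega, by rwa [h.trunc]⟩, min t N, by omega, by omega,
      by rwa [h.trunc]⟩

theorem act_mono {a b a' b' : ℕ} (h1 : a' ≤ a) (h2 : b ≤ b') : KB.act A a b ⊆ KB.act A a' b' := by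
  intro p hp
  obtain ⟨⟨s, s1, s2, s3⟩, t, t1, t2, t3⟩ := KB.mem_act.1 hp
  exact KB.mem_act.2 ⟨⟨s, by omega, by omega, s3⟩, t, by omega, by omega, t3⟩

theorem Good.slope (h : Good x y th be A P N) {s t : ℕ} (hst : s ≤ t) {p q : α}
    (hp : p ∈ A t \ A s) (hq : q ∈ A s \ A t) :
    x p < x q ∧ th (min s N) * (x q - x p) < y q - y p ∧
      y q - y p < th (min t N) * (x q - x p) := by
  rw [mem_sdiff, h.mem, h.mem] at hp hq
  have hlt : min s N < min t N := by
    rcases eq_or_lt_of_le (min_le_min_right N hst) with c | c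
    · rw [c] at hp; exact absurd hp.1 hp.2
    · exact c
  exact KS.Z.slope (h.mono hlt) (fun c => hp.2 ⟨hp.1.1, c⟩) hp.1.2 hq.1.2
    (fun c => hq.2 ⟨hq.1.1, c⟩)

theorem Good.ord (h : Good x y th be A P N) : KB.Ord x A :=
  fun _ _ hst _ hp _ hq => (h.slope hst hp hq).1

theorem Good.half (h : Good x y th be A P N) {a s b : ℕ} (has : a ≤ s) (hsb : s ≤ b) :
    ∃ r1 r2, (a ≤ r1 ∧ r1 ≤ s) ∧ (s ≤ r2 ∧ r2 ≤ b) ∧ ∀ p ∈ KB.act A a s, p ∈ KB.act A s b →
      p ∈ A s → p ∉ A r1 ∨ p ∉ A r2 := by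
  obtain ⟨r1, r2, a1, a2, a3, a4, k⟩ := KS.Z.env x (th := fun t => th (min t N))
    (fun t => be (min t N)) (fun i j hij => h.mono.monotone (min_le_min_right N hij)) P has hsb
  refine ⟨r1, r2, ⟨a1, a2⟩, ⟨a3, a4⟩, fun p h1 h2 hs => ?_⟩
  have hp := h.sub s hs
  obtain ⟨_, u, u1, u2, u3⟩ := KB.mem_act.1 h1
  obtain ⟨_, v, v1, v2, v3⟩ := KB.mem_act.1 h2
  rw [h.mem] at u3 v3
  have u4 := not_lt.1 fun c => u3 ⟨hp, c⟩
  have v4 := not_lt.1 fun c => v3 ⟨hp, c⟩
  rcases k p hp with c | c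
  · left
    rw [h.mem]
    intro d
    have := c v v1 v2
    linarith [d.2]
  · right
    rw [h.mem]
    intro d
    have := c u u1 u2
    linarith [d.2]

theorem Good.two (h : Good x y th be A P N) : KB.Two A := by
  intro a s b has hsb
  obtain ⟨r1, r2, a1, a2, k⟩ := h.half has hsb
  obtain ⟨r3, r4, a3, a4, k'⟩ := h.refl.half has hsb
  refine ⟨r1, r2, r3, r4, a1, a2, a3, a4, fun p h1 h2 => ?_⟩
  have hp := h.act_sub _ _ h1
  by_cases hs : p ∈ A s
  · rcases k p h1 h2 hs with c | c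
    · exact Or.inl (mem_sdiff.2 ⟨hs, c⟩)
    · exact Or.inr (Or.inl (mem_sdiff.2 ⟨hs, c⟩))
  · rw [h.act_refl, h.act_refl] at k'
    rcases k' p h1 h2 (mem_sdiff.2 ⟨hp, hs⟩) with c | c
    · exact Or.inr (Or.inr (Or.inl (mem_sdiff.2
        ⟨by by_contra d; exact c (mem_sdiff.2 ⟨hp, d⟩), hs⟩)))
    · exact Or.inr (Or.inr (Or.inr (mem_sdiff.2
        ⟨by by_contra d; exact c (mem_sdiff.2 ⟨hp, d⟩), hs⟩)))

theorem Good.bal_act (h : Good x y th be A P N) {a b : ℕ} (hb : b ≤ N) :
    KS.Bal x y th be A (KB.act A a b) a b where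
  mono := h.mono
  ab := fun t _ ht p hp => by
    rw [h.mem, min_eq_left (ht.trans hb)]
    exact and_iff_right (h.act_sub _ _ hp)
  card := fun s t s1 s2 t1 t2 => by
    have k : ∀ u, a ≤ u → u ≤ b → (KB.act A a b ∩ A u).card +
        (P.filter fun p => ∀ r, a ≤ r → r ≤ b → p ∈ A r).card = (A u).card := by
      intro u u1 u2
      rw [← card_union_of_disjoint]
      · congr 1
        ext p
        rw [mem_union, mem_inter, mem_filter, KB.mem_act]
        constructor
        · rintro (c | c)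
          · exact c.2
          · exact c.2 u u1 u2
        · intro c
          by_cases d : ∀ r, a ≤ r → r ≤ b → p ∈ A r
          · exact Or.inr ⟨h.sub u c, d⟩
          · push Not at d
            exact Or.inl ⟨⟨⟨u, u1, u2, c⟩, d⟩, c⟩
      · rw [disjoint_left]
        intro p c d
        obtain ⟨_, r, r1, r2, r3⟩ := KB.mem_act.1 (mem_inter.1 c).1
        exact r3 ((mem_filter.1 d).2 r r1 r2)
    have := k s s1 s2
    have := k t t1 t2
    have := h.card s t
    omega

theorem Good.star (hS : KS.S_STARZ) (h : Good x y th be A P N) : KB.Star 600 A := by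
  intro v a b F Z hv hF
  rcases F.eq_empty_or_nonempty with rfl | ⟨i0, hi0⟩
  · simp
  have hab : a ≤ b := (hF i0 hi0).1.trans ((hv (Nat.le_succ i0)).trans (hF i0 hi0).2)
  have k := hS α x y th be A (KB.act A (min a N) (min b N)) (min a N) (min b N)
    (h.bal_act (min_le_right _ _)) (Z ∩ KB.act A (min a N) (min b N)) (fun i => min (v i) N) F
    inter_subset_right (fun i j hij => min_le_min_right N (hv hij))
    (fun i hi => ⟨min_le_min_right N (hF i hi).1, min_le_min_right N (hF i hi).2⟩)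
  rw [h.act_trunc hab] at k
  have e : ∀ i ∈ F, Z ∩ KB.win A v i =
      KS.act A (Z ∩ KB.act A a b) (min (v i) N) (min (v (i + 1)) N) := by
    intro i hi
    have e1 := h.act_trunc (hv (Nat.le_succ i))
    have e2 : KB.win A v i ⊆ KB.act A a b := act_mono (hF i hi).1 (hF i hi).2
    ext p
    rw [KS.mem_act, mem_inter, mem_inter]
    constructor
    · rintro ⟨c, d⟩
      have d' : p ∈ KB.act A (min (v i) N) (min (v (i + 1)) N) := by rw [e1]; exact d
      obtain ⟨⟨s, s1, s2, s3⟩, t, t1, t2, t3⟩ := KB.mem_act.1 d'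
      exact ⟨⟨c, e2 d⟩, s, t, s1, s2, t1, t2, s3, t3⟩
    · rintro ⟨c, s, t, s1, s2, t1, t2, s3, t3⟩
      have d' : p ∈ KB.act A (min (v i) N) (min (v (i + 1)) N) :=
        KB.mem_act.2 ⟨⟨s, s1, s2, s3⟩, t, t1, t2, t3⟩
      rw [e1] at d'
      exact ⟨c.1, d'⟩
  rw [sum_congr rfl fun i hi => by rw [e i hi]]
  refine k.trans ?_
  have : ((Z ∩ KB.act A a b).card : ℝ) ≤ Z.card := by
    exact_mod_cast card_le_card inter_subset_left
  gcongr

end Pool.Agent.P.MP_77a832_co.KM
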