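import Pool.Agent.P.MP_77a832_co.KS.ZDefs

/-! From points with coordinates to the Euclidean plane. -/

set_option autoImplicit false

namespace Pool.Agent.P.MP_77a832_co.KM

open Finset
open scoped Classical

theorem final_of (h : KS.S_KSETS) : ∃ C ε : ℝ, 0 < ε ∧
    ∀ (P : Finset (EuclideanSpace ℝ (Fin 2))) (k : ℕ), 1 ≤ k →
      (Set.ncard {S : Finset (EuclideanSpace ℝ (Fin 2)) | S.card = k ∧
        ∃ (v : EuclideanSpace ℝ (Fin 2)) (d : ℝ), v ≠ 0 ∧
          (S : Set (EuclideanSpace ℝ (Fin 2))) =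
            (P : Set (EuclideanSpace ℝ (Fin 2))) ∩ {z | inner ℝ v z < d}} : ℝ) ≤
        C * P.card * (k : ℝ) ^ (1 / 3 - ε) := by
  obtain ⟨C, ε, hε, h⟩ := h
  refine ⟨C, ε, hε, fun P k hk => ?_⟩
  set M : Set (Finset (EuclideanSpace ℝ (Fin 2))) := {S | S.card = k ∧
    ∃ (v : EuclideanSpace ℝ (Fin 2)) (d : ℝ), v ≠ 0 ∧
      (S : Set (EuclideanSpace ℝ (Fin 2))) =
        (P : Set (EuclideanSpace ℝ (Fin 2))) ∩ {z | inner ℝ v z < d}} with hM
  have hfin : M.Finite := by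
    refine (P.powerset.finite_toSet).subset ?_
    rintro S ⟨_, v, d, _, e⟩
    refine mem_coe.2 (mem_powerset.2 fun p hp => ?_)
    have : p ∈ (S : Set (EuclideanSpace ℝ (Fin 2))) := mem_coe.2 hp
    rw [e] at this
    exact mem_coe.1 this.1
  rw [Set.ncard_eq_toFinset_card M hfin]
  refine h _ (fun z => z 0) (fun z => z 1) P k hk hfin.toFinset fun S hS => ?_
  obtain ⟨h1, v, d, _, e⟩ := hfin.mem_toFinset.1 hS
  refine ⟨h1, v 0, v 1, d, ?_⟩
  ext p
  have e1 : inner ℝ v p = v 0 * p 0 + v 1 * p 1 := by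
    simp [PiLp.inner_apply, Fin.sum_univ_two, mul_comm]
  rw [mem_filter, ← mem_coe, e, ← e1]
  rfl

end Pool.Agent.P.MP_77a832_co.KM
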