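import Pool.Agent.P.MP_77a832_co.KM.Bridge
import Pool.Agent.P.MP_77a832_co.KS.TailsB
import Pool.Agent.P.MP_77a832_co.KT.Defs

/-! The gain of a factor two at one scale, from the four blocks. -/

set_option autoImplicit false

namespace Pool.Agent.P.MP_77a832_co.KM

open Finset
open scoped Classical

theorem tails_mono {α : Type} {P : Finset α} {S : α → Finset ℕ} {J : ℕ} {C C' : ℝ}
    (h : KG.Tails P S J C) (hC : C ≤ C') : KG.Tails P S J C' where
  lo := fun e he D hD Q hQ => (h.lo e he D hD Q hQ).trans (by gcongr)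
  up := fun e he z hz Q hQ => (h.up e he z hz Q hQ).trans (by gcongr)
  bl := fun e he b hb Q hQ => (h.bl e he b hb Q hQ).trans (by gcongr)
  br := fun e he b hb Q hQ => (h.br e he b hb Q hQ).trans (by gcongr)
  hv := fun e he k hk D a z hD ha hz h1 Q hQ =>
    (h.hv e he k hk D a z hD ha hz h1 Q hQ).trans (by gcongr)
  sp := fun e he z hz F hF h1 Q hQ => (h.sp e he z hz F hF h1 Q hQ).trans (by gcongr)

theorem tup_mono {α τ : Type} {x y : α → ℝ} {P : Finset α} {Th : ℕ → ℝ} {S : α → Finset ℕ}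
    {T : Finset τ} {q : τ → α} {p : Fin 3 → τ → α} {lab : Fin 3 → τ → ℕ} {J : ℕ} {om C C' : ℝ}
    (h : KG.Tup x y P Th S T q p lab J om C) (hC : C ≤ C') :
    KG.Tup x y P Th S T q p lab J om C' where
  ne := h.ne
  pP := h.pP
  xlt := h.xlt
  slo := h.slo
  shi := h.shi
  mem := h.mem
  dif := h.dif
  Sle := fun t ht i => (h.Sle t ht i).trans (by gcongr)
  pair := h.pair
  trip := by
    obtain ⟨F, f1, f2⟩ := h.trip
    exact ⟨F, f1, f2.trans (by gcongr)⟩
  marg := fun i a B Q hQ k => (h.marg i a B Q hQ k).trans (by gcongr)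

theorem Good.slp {α : Type} {x y : α → ℝ} {th be : ℕ → ℝ} {A : ℕ → Finset α} {P : Finset α}
    {N : ℕ} (h : Good x y th be A P N) : KT.Slp x y P A th N where
  sub := fun t _ => h.sub t
  card := fun s t _ _ => h.card s t
  mono := fun _ _ hst _ => h.mono.monotone hst
  slope := fun s t hst ht p hp q hq => by
    have := h.slope hst hp hq
    rwa [min_eq_left ht, min_eq_left (hst.trans ht)] at this

theorem main (hS : KS.S_STARZ) (hSel : KB.S_SEL) (hT : KT.S_TUP) (hG : KG.S_GLUE) :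
    ∃ L, 1 ≤ L ∧ KS.MainAt L := by
  obtain ⟨k0, c, hc, h1⟩ := hSel 600 (by norm_num)
  obtain ⟨η, hη, h2⟩ := hT (2 * 600 ^ 3) c hc
  obtain ⟨C, J0, hC, h3⟩ := h1 η hη
  obtain ⟨C', h4⟩ := h2 C hC.le
  obtain ⟨J1, h5⟩ := hG (max C' (2 * 600 ^ 3))
  set J := max J0 J1 + 1 with hJ
  have kill : ∀ (α : Type) (x y : α → ℝ) (th be : ℕ → ℝ) (A : ℕ → Finset α) (P : Finset α)
      (v : ℕ → ℕ) (F : Finset ℕ) (s t : ℕ → ℕ) (Y : ℕ → Finset α), P.Nonempty → Monotone v →
      Good x y th be A P (v (16 ^ J)) →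
      KB.Sel A v J P.card c (C * (P.card / 16 ^ J)) η F s t Y →
      (∀ B ∈ F, Y B ⊆ A (s B) \ A (t B)) → False := by
    intro α x y th be A P v F s t Y hP hv g sel side
    have tl := KS.Tails.tails (P := P) (J := J) (K := 600) (by norm_num) hv (g.star hS)
      (g.act_sub _ _)
    have lt : ∀ a, ∀ B ∈ KS.Tails.vis A v J a, B < 16 ^ J :=
      fun a B hB => (KS.Tails.mem_vis.1 hB).1
    obtain ⟨T, lab, tp⟩ := h4 J α x y P A th v (KS.Tails.vis A v J) F s t Y hP hv g.slp lt
      (fun a B b1 b2 => KS.Tails.mem_vis.2 ⟨b1, b2⟩) tl sel side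
    refine h5 J (by omega) x y P (fun B => th (v B)) (KS.Tails.vis A v J) T Prod.fst
      (fun i u => u.2 i) lab _ (fun B B' b _ => g.mono.monotone (hv b)) g.gp.inj ?_ lt
      (tails_mono tl (le_max_right _ _)) (tup_mono tp (le_max_left _ _))
    intro a ha b hb d hd n1 n2 n3 e
    exact g.gp.col a ha b hb d hd n1 n2 n3 (by linarith)
  refine ⟨2 * J + k0, by omega, ?_⟩
  intro α x y th be A P M hM hB hGP
  by_contra hlt
  have hlt := not_le.1 hlt
  have g := Good.of hB hGP
  set N := 16 ^ (2 * J + k0) * M with hN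
  set A' : ℕ → Finset α := fun t => P ∩ A (min t N) with hA'
  have hP : P.Nonempty := by
    rcases P.eq_empty_or_nonempty with e | e
    · subst e
      simp [KS.act] at hlt
    · exact e
  have n0 : (0 : ℝ) < P.card := by exact_mod_cast card_pos.2 hP
  have hw : Monotone fun i => i * M := fun i j hij => Nat.mul_le_mul_right _ hij
  have ew : ∀ i ∈ range (16 ^ (2 * J + k0)),
      KB.win A' (fun i => i * M) i = KS.act A P (i * M) ((i + 1) * M) := by
    intro i hi
    have hi' : (i + 1) * M ≤ N := Nat.mul_le_mul_right _ (mem_range.1 hi)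
    ext p
    unfold KB.win
    rw [KB.mem_act, KS.mem_act]
    simp only [hA', mem_inter]
    constructor
    · rintro ⟨⟨s, s1, s2, s3⟩, t, t1, t2, t3⟩
      rw [min_eq_left (s2.trans hi')] at s3
      rw [min_eq_left (t2.trans hi')] at t3
      exact ⟨s3.1, s, t, s1, s2, t1, t2, s3.2, fun d => t3 ⟨s3.1, d⟩⟩
    · rintro ⟨hp, s, t, s1, s2, t1, t2, s3, t3⟩
      refine ⟨⟨s, s1, s2, hp, ?_⟩, t, t1, t2, fun d => t3 ?_⟩
      · rwa [min_eq_left (s2.trans hi')]
      · have := d.2
        rwa [min_eq_left (t2.trans hi')] at this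
  obtain ⟨F, s, t, Y, sel⟩ := h3 J (by omega) α x A' (fun i => i * M) P.card n0 hw g.ord g.card
    g.two (g.star hS) (by exact_mod_cast card_le_card (g.act_sub _ _)) (by
      rw [sum_congr rfl fun i hi => by rw [ew i hi]]
      have : ((2 ^ (2 * J + k0) * P.card : ℕ) : ℝ) < ((2 * ∑ i ∈ range (16 ^ (2 * J + k0)),
        (KS.act A P (i * M) ((i + 1) * M)).card : ℕ) : ℝ) := by exact_mod_cast hlt
      push_cast at this
      linarith)
  have hv : Monotone (KB.up (fun i => i * M) (J + k0)) :=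
    fun i j hij => hw (Nat.mul_le_mul_right _ hij)
  have eN : KB.up (fun i => i * M) (J + k0) (16 ^ J) = N := by
    simp only [KB.up, hN]
    rw [← pow_add]
    congr 2
    omega
  rcases sel.side with side | side
  · exact kill α x y th be A' P _ F s t Y hP hv (eN ▸ g) sel side
  · have side' : ∀ B ∈ F, Y B ⊆ (P \ A' (s B)) \ (P \ A' (t B)) := by
      intro B hB' p hp
      obtain ⟨a1, a2⟩ := mem_sdiff.1 (side B hB' hp)
      exact mem_sdiff.2 ⟨mem_sdiff.2 ⟨g.sub _ a1, a2⟩, fun d => (mem_sdiff.1 d).2 a1⟩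
    exact kill α _ _ th _ (fun t => P \ A' t) P _ F s t Y hP hv (eN ▸ g.refl)
      ⟨sel.sub, sel.many, sel.time, Or.inl side', sel.size, sel.few⟩ side'

end Pool.Agent.P.MP_77a832_co.KM
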